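import Pool.Agent.Helper50_DP.Stmts

/-! # Squad DP: module VER -/

set_option autoImplicit false

universe u v w

open MvPolynomial

namespace Pool.Agent.DP.H48

section

variable {σ : Type*} [Fintype σ] [DecidableEq σ] {Ω : Type*} [Field Ω]

/-- the chain rule -/
theorem deriv_aeval (v : σ → Polynomial Ω) (Q : MvPolynomial σ ℤ) :
    Polynomial.derivative (aeval v Q) =
      ∑ s, aeval v (pderiv s Q) * Polynomial.derivative (v s) := by
  induction Q using MvPolynomial.induction_on with
  | C a =>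
    simp
  | add p q hp hq =>
    simp only [map_add, hp, hq, add_mul, Finset.sum_add_distrib]
  | mul_X p n hp =>
    rw [map_mul, aeval_X, Polynomial.derivative_mul, hp, Finset.sum_mul]
    have h1 : ∀ s, aeval v (pderiv s (p * X n)) * Polynomial.derivative (v s) =
        aeval v (pderiv s p) * Polynomial.derivative (v s) * v n +
          (if s = n then aeval v p * Polynomial.derivative (v n) else 0) := by
      intro s
      rw [pderiv_mul, map_add, map_mul, map_mul, aeval_X]
      by_cases hs : s = n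
      · subst hs
        rw [pderiv_X_self, map_one, if_pos rfl]; ring
      · rw [pderiv_X_of_ne (Ne.symm hs), map_zero, if_neg hs]; ring
    rw [Finset.sum_congr rfl (fun s _ => h1 s), Finset.sum_add_distrib,
      Finset.sum_ite_eq' Finset.univ n]
    simp

end

section

variable {N : ℕ} {Ω : Type u} [Field Ω]

/-- the line from the jets `X` to the jets `X 0, p, q` -/
noncomputable def vt (a : Fin N → Fin 3 → Ω) (X : Fin 3 → Fin 3 → Ω) (Y : Fin 3 → Fin 3 → Ω) :
    Sig N → Polynomial Ω :=
  Sum.elim (fun p => Polynomial.C (a p.1 p.2))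
    (fun p => Polynomial.C (X p.1 p.2) + Polynomial.C (Y p.1 p.2) * Polynomial.X)

theorem eval_vt (a : Fin N → Fin 3 → Ω) (X Y : Fin 3 → Fin 3 → Ω) (t : Ω) (Q : Pol N) :
    (aeval (vt a X Y) Q : Polynomial Ω).eval t = evP a (fun r c => X r c + Y r c * t) Q := by
  have h1 : (aeval (vt a X Y) Q : Polynomial Ω).eval t =
      ((Polynomial.evalRingHom t).comp ((aeval (vt a X Y) : Pol N →ₐ[ℤ] Polynomial Ω) :
        Pol N →+* Polynomial Ω)) Q := rfl
  rw [h1]
  unfold evP
  have h2 : (Polynomial.evalRingHom t).comp ((aeval (vt a X Y) : Pol N →ₐ[ℤ] Polynomial Ω) :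
      Pol N →+* Polynomial Ω) = ((aeval (vals a (fun r c => X r c + Y r c * t)) :
        Pol N →ₐ[ℤ] Ω) : Pol N →+* Ω) := by
    apply MvPolynomial.ringHom_ext
    · intro n
      simp
    · rintro (⟨i, c⟩ | ⟨r, c⟩)
      · simp [vt, vals]
      · simp [vt, vals]
  rw [h2]
  rfl

theorem deriv_vt (a : Fin N → Fin 3 → Ω) (X Y : Fin 3 → Fin 3 → Ω) (Q : Pol N) :
    Polynomial.derivative (aeval (vt a X Y) Q) =
      ∑ p : Fin 3 × Fin 3, Polynomial.C (Y p.1 p.2) * aeval (vt a X Y) (dX p.1 p.2 Q) := by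
  classical
  rw [deriv_aeval, Fintype.sum_sum_type]
  have h1 : ∑ p : Fin N × Fin 3, aeval (vt a X Y) (pderiv (Sum.inl p) Q) *
      Polynomial.derivative (vt a X Y (Sum.inl p)) = 0 := by
    apply Finset.sum_eq_zero
    intro p _
    simp [vt]
  rw [h1, zero_add]
  apply Finset.sum_congr rfl
  intro p _
  have h2 : Polynomial.derivative (vt a X Y (Sum.inr p)) = Polynomial.C (Y p.1 p.2) := by
    simp [vt]
  rw [h2, mul_comm]
  rfl

theorem iter_zero (a : Fin N → Fin 3 → Ω) (X Y : Fin 3 → Fin 3 → Ω) (i : ℕ) :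
    ∀ Q : Pol N, (∀ l : List (Fin 3 × Fin 3), l.length ≤ i →
      evP a X (l.foldr (fun p Q => dX p.1 p.2 Q) Q) = 0) →
      ((Polynomial.derivative^[i] (aeval (vt a X Y) Q)).eval 0) = 0 := by
  induction i with
  | zero =>
    intro Q h
    rw [Function.iterate_zero_apply, eval_vt]
    have h1 := h [] (by simp)
    simpa using h1
  | succ i ih =>
    intro Q h
    rw [Function.iterate_succ_apply, deriv_vt, Polynomial.iterate_derivative_sum,
      Polynomial.eval_finsetSum]
    apply Finset.sum_eq_zero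
    intro p _
    rw [Polynomial.iterate_derivative_C_mul, Polynomial.eval_mul]
    rw [ih (dX p.1 p.2 Q), mul_zero]
    intro l hl
    have h1 := h (l ++ [p]) (by simp; omega)
    rw [List.foldr_append] at h1
    exact h1

theorem natDegree_vt (a : Fin N → Fin 3 → Ω) (X Y : Fin 3 → Fin 3 → Ω) (hY : Y 0 = 0) (d : ℕ)
    (P : Pol N) (h : VDeg d P) : (aeval (vt a X Y) P : Polynomial Ω).natDegree ≤ d := by
  classical
  rw [aeval_def, eval₂_eq']
  apply Polynomial.natDegree_sum_le_of_forall_le
  intro s hs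
  refine le_trans Polynomial.natDegree_mul_le ?_
  have h1 : ((algebraMap ℤ (Polynomial Ω)) (coeff s P)).natDegree = 0 := by
    rw [eq_intCast]; exact Polynomial.natDegree_intCast _
  rw [h1, zero_add]
  refine le_trans (Polynomial.natDegree_prod_le _ _) ?_
  refine le_trans ?_ (h s hs)
  rw [Fintype.sum_sum_type]
  have h2 : ∑ p : Fin N × Fin 3, (vt a X Y (Sum.inl p) ^ s (Sum.inl p)).natDegree = 0 := by
    apply Finset.sum_eq_zero
    intro p _
    have : vt a X Y (Sum.inl p) ^ s (Sum.inl p) = Polynomial.C (a p.1 p.2 ^ s (Sum.inl p)) := by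
      simp [vt]
    rw [this, Polynomial.natDegree_C]
  rw [h2, zero_add, Fintype.sum_prod_type, Fin.sum_univ_three]
  have h3 : ∑ c : Fin 3, (vt a X Y (Sum.inr (0, c)) ^ s (Sum.inr (0, c))).natDegree = 0 := by
    apply Finset.sum_eq_zero
    intro c _
    have : vt a X Y (Sum.inr (0, c)) ^ s (Sum.inr (0, c)) =
        Polynomial.C (X 0 c ^ s (Sum.inr (0, c))) := by
      simp [vt, hY]
    rw [this, Polynomial.natDegree_C]
  have h4 : ∀ (r c : Fin 3), (vt a X Y (Sum.inr (r, c)) ^ s (Sum.inr (r, c))).natDegree ≤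
      s (Sum.inr (r, c)) := by
    intro r c
    refine le_trans (Polynomial.natDegree_pow_le) ?_
    have h5 : (vt a X Y (Sum.inr (r, c))).natDegree ≤ 1 := by
      show (Polynomial.C (X r c) + Polynomial.C (Y r c) * Polynomial.X).natDegree ≤ 1
      rw [add_comm]
      exact Polynomial.natDegree_linear_le
    calc s (Sum.inr (r, c)) * (vt a X Y (Sum.inr (r, c))).natDegree
        ≤ s (Sum.inr (r, c)) * 1 := Nat.mul_le_mul_left _ h5
      _ = s (Sum.inr (r, c)) := mul_one _
  rw [h3, zero_add, Finset.sum_add_distrib]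
  exact add_le_add (Finset.sum_le_sum (fun c _ => h4 1 c)) (Finset.sum_le_sum (fun c _ => h4 2 c))

end

theorem ver : VerStmt.{u} := by
  intro N d P hd Ω _ _ a X h p q
  set Y : Fin 3 → Fin 3 → Ω := ![0, fun c => p c - X 1 c, fun c => q c - X 2 c] with hY
  have hg : (aeval (vt a X Y) P : Polynomial Ω) = 0 := by
    ext i
    rw [Polynomial.coeff_zero]
    by_cases hi : i ≤ d
    · have h1 := iter_zero a X Y i P (fun l hl => h l (hl.trans hi))
      rw [← Polynomial.coeff_zero_eq_eval_zero, Polynomial.coeff_iterate_derivative] at h1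
      rw [zero_add, Nat.descFactorial_self, nsmul_eq_mul] at h1
      exact (mul_eq_zero.1 h1).resolve_left (by exact_mod_cast Nat.factorial_ne_zero i)
    · exact Polynomial.coeff_eq_zero_of_natDegree_lt
        (lt_of_le_of_lt (natDegree_vt a X Y (by rw [hY]; rfl) d P hd) (not_le.1 hi))
  have h2 := eval_vt a X Y 1 P
  rw [hg, Polynomial.eval_zero] at h2
  have h3 : (fun r c => X r c + Y r c * 1) = ![X 0, p, q] := by
    funext r c
    fin_cases r
    · simp [hY]
    · simp [hY]
    · simp [hY]
  rw [h3] at h2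
  exact h2.symm

end Pool.Agent.DP.H48
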